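import Pool.Agent.H849.MX.Fam
import Pool.Agent.H849.SEC.Comp

/-!
# Comparison of a section with the virtual section
-/

set_option autoImplicit false

namespace Pool.Agent.H849.MX

open Module Submodule Pool.Agent.Y143 Pool.Agent.R942.WB Pool.Agent.H849.SEC

universe u v

variable {Ω : Type u} [Field Ω] [CharZero Ω] {Γ : Type} {n q c : ℕ}

section V

variable {X : SpecialFibre.{u, v} Ω Γ (n + c) q} {T : ∀ a, Module.End Ω (X.H a)}
  (hL : IsLefschetzClass n c X.toStrataData T)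

/-- The projection to the virtual section. -/
noncomputable def mv (a : ℕ) : X.H a →ₗ[Ω] (virt hL).H a := mk hL.isClass a

/-- The embedding of the virtual section given by `T`. -/
noncomputable def lv (a : ℕ) : (virt hL).H a →ₗ[Ω] X.H a := em hL.isClass a

lemma mv_surj (a : ℕ) (k : (virt hL).H a) : ∃ x, mv hL a x = k := mk_surj hL.isClass a k

lemma lv_mv (a : ℕ) (x : X.H a) : lv hL a (mv hL a x) = T a x := em_mk hL.isClass a x

lemma lv_injective (a : ℕ) {k l : (virt hL).H a} (h : lv hL a k = lv hL a l) : k = l := by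
  rw [← sub_eq_zero]
  apply em_inj hL.isClass a
  exact (map_sub (lv hL a) _ _).trans (sub_eq_zero.2 h)

lemma mv_mem (a : ℕ) (m : ℤ) {k : (virt hL).H a} :
    k ∈ (virt hL).gr a m ↔ ∃ x ∈ X.gr a m, mv hL a x = k := Iff.rfl

lemma pair_mv (a : ℕ) (x y : X.H a) :
    (virt hL).pair a (mv hL a x) (mv hL a y) = X.pair a x (T a y) := pair_mk hL.isClass a x y

lemma lef_mv (a : ℕ) (x : X.H a) : (virt hL).lef a (mv hL a x) = mv hL a (X.lef a x) := rfl

lemma res_mv (a : ℕ) (x : X.H a) : (virt hL).res a (mv hL a x) = mv hL (a + 1) (X.res a x) := rfl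

lemma gys_mv (a : ℕ) (x : X.H (a + 1)) :
    (virt hL).gys a (mv hL (a + 1) x) = mv hL a (X.gys a x) := rfl

lemma mv_eq_zero (a : ℕ) {x : X.H a} : mv hL a x = 0 ↔ T a x = 0 := mk_eq_zero hL.isClass a

lemma lv_res (a : ℕ) (k : (virt hL).H a) :
    lv hL (a + 1) ((virt hL).res a k) = X.res a (lv hL a k) := by
  obtain ⟨x, rfl⟩ := mv_surj hL a k
  rw [lv_mv, res_mv, T_res hL.isClass, lv_mv]

lemma lv_gys (a : ℕ) (k : (virt hL).H (a + 1)) :
    lv hL a ((virt hL).gys a k) = X.gys a (lv hL (a + 1) k) := by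
  obtain ⟨x, rfl⟩ := mv_surj hL (a + 1) k
  rw [lv_mv, gys_mv, T_gys hL.isClass, lv_mv]

end V

namespace Sec

variable {X : SpecialFibre.{u, v} Ω Γ (n + c) q} {T : ∀ a, Module.End Ω (X.H a)}
  (hL : IsLefschetzClass n c X.toStrataData T) {Z : SpecialFibre.{u, v} Ω Γ n q}
  {f : Maps X.toStrataData Z.toStrataData} {t : Ω}
  (hf : IsSectionMap (X := X.toStrataData) (Z := Z.toStrataData) f n T t)

section
include hf

lemma pull_gr {a : ℕ} {m : ℤ} {x : X.H a} (hx : x ∈ X.gr a m) : f.pull a x ∈ Z.gr a m :=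
  (hf.pair a).degree m x hx

lemma pair_pull (a : ℕ) (x : X.H a) (z : Z.H a) :
    Z.pair a (f.pull a x) z = X.pair a x (f.push a z) := (hf.pair a).transpose x z

lemma push_pull (a : ℕ) (x : X.H a) : f.push a (f.pull a x) = t • T a x :=
  (hf.pair a).composite x

lemma pull_surj {a : ℕ} {m : ℤ} (hm : m < (n : ℤ) - a) {z : Z.H a} (hz : z ∈ Z.gr a m) :
    ∃ x ∈ X.gr a m, f.pull a x = z := (hf.pair a).weakLefschetz m hm z hz

lemma pull_res (a : ℕ) (x : X.H a) : f.pull (a + 1) (X.res a x) = Z.res a (f.pull a x) :=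
  hf.res a x

lemma pull_gys (a : ℕ) (x : X.H (a + 1)) : f.pull a (X.gys a x) = Z.gys a (f.pull (a + 1) x) :=
  hf.gys a x

/-- The push-forward is also the left transpose. -/
lemma pair_push (a : ℕ) (z : Z.H a) (x : X.H a) :
    X.pair a (f.push a z) x = Z.pair a z (f.pull a x) := by
  refine X.gr_induction (P := fun x => X.pair a (f.push a z) x = Z.pair a z (f.pull a x))
    (by simp) (fun y x hy hx => by rw [map_add, map_add, map_add, hy, hx]) (fun m y hy => ?_) x
  rw [X.pair_symm a m y _ hy, Z.pair_symm a m _ _ (pull_gr hf hy), pair_pull hf]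

lemma push_gr {a : ℕ} {m : ℤ} {z : Z.H a} (hz : z ∈ Z.gr a m) :
    f.push a z ∈ X.gr a (m + 2 * c) := by
  apply X.mem_gr_of_pair
  intro m' y hy hne
  rw [pair_push hf]
  exact Z.pair_gr a m m' _ _ hz (pull_gr hf hy) (by push_cast at hne; omega)

lemma push_res (a : ℕ) (z : Z.H a) : f.push (a + 1) (Z.res a z) = X.res a (f.push a z) := by
  rw [← sub_eq_zero]
  apply X.pair_nondeg'
  intro x
  rw [map_sub, ← pair_pull hf, ← Z.pair_gys, ← pull_gys hf, pair_pull hf, X.pair_gys, sub_self]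

lemma push_gys (a : ℕ) (z : Z.H (a + 1)) : f.push a (Z.gys a z) = X.gys a (f.push (a + 1) z) := by
  rw [← sub_eq_zero]
  apply X.pair_nondeg'
  intro x
  rw [map_sub, ← pair_pull hf, ← Z.pair_res, ← pull_res hf, pair_pull hf, X.pair_res, sub_self]

end

include hL hf

/-- The image of the push-forward is contained in the image of `T`. -/
lemma push_mem_range (a : ℕ) (z : Z.H a) : ∃ w : X.H a, T a w = f.push a z := by
  refine Z.gr_induction (P := fun z => ∃ w : X.H a, T a w = f.push a z)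
    ⟨0, by simp⟩ ?_ (fun m z hz => ?_) z
  · rintro y z ⟨v, hv⟩ ⟨w, hw⟩
    exact ⟨v + w, by rw [map_add, map_add, hv, hw]⟩
  · rcases lt_or_ge m ((n : ℤ) - a) with hm | hm
    · obtain ⟨x, _, rfl⟩ := pull_surj hf hm hz
      exact ⟨t • x, by rw [map_smul, push_pull hf]⟩
    · obtain ⟨s, hs⟩ := Int.eq_ofNat_of_zero_le (show 0 ≤ m - ((n : ℤ) - a) by omega)
      have h1 := push_gr hf hz
      obtain ⟨u, _, hu⟩ := (hL.mixed a).surj s (f.push a z) (by
        rwa [show (n : ℤ) - a + s + 2 * c = m + 2 * c by omega])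
      refine ⟨(X.lef a ^ s) u, ?_⟩
      rw [T_lef_pow hL.isClass]
      exact hu

lemma pull_eq_zero {a : ℕ} {x : X.H a} (h : T a x = 0) : f.pull a x = 0 := by
  apply Z.pair_nondeg
  intro z
  rw [pair_pull hf]
  obtain ⟨w, hw⟩ := push_mem_range hL hf a z
  rw [← hw, ← T_pair hL.isClass, h, map_zero, LinearMap.zero_apply]

/-- The elements killed by the push-forward only occur in the middle degree. -/
lemma van_zero {a : ℕ} {m : ℤ} (hm : m ≠ (n : ℤ) - a) {z : Z.H a} (hz : z ∈ Z.gr a m)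
    (h : f.push a z = 0) : z = 0 := by
  rcases lt_or_gt_of_ne hm with hm | hm
  · obtain ⟨x, _, rfl⟩ := pull_surj hf hm hz
    rw [push_pull hf] at h
    exact pull_eq_zero hL hf ((smul_eq_zero.1 h).resolve_left hf.ne_zero)
  · apply Z.pair_nondeg
    intro y
    refine Z.gr_induction (P := fun y => Z.pair a z y = 0) (by simp)
      (fun x y hx hy => by rw [map_add, hx, hy, add_zero]) (fun m' y hy => ?_) y
    by_cases hmm : m + m' = 2 * ((n : ℤ) - a)
    · obtain ⟨x, _, rfl⟩ := pull_surj hf (show m' < (n : ℤ) - a by omega) hy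
      rw [← pair_push hf, h, map_zero, LinearMap.zero_apply]
    · exact Z.pair_gr a _ _ _ _ hz hy hmm

/-- The embedding of the virtual section. -/
noncomputable def jn (a : ℕ) : (virt hL).H a →ₗ[Ω] Z.H a :=
  (LinearMap.ker (T a)).liftQ (f.pull a) fun _ hx =>
    LinearMap.mem_ker.2 (pull_eq_zero hL hf (LinearMap.mem_ker.1 hx))

lemma jn_mv (a : ℕ) (x : X.H a) : jn hL hf a (mv hL a x) = f.pull a x := rfl

lemma exists_pr (a : ℕ) : ∃ P : Z.H a →ₗ[Ω] (virt hL).H a,
    ∀ z, lv hL a (P z) = t⁻¹ • f.push a z := by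
  let e := LinearEquiv.ofInjective (lv hL a) (fun k l h => lv_injective hL a h)
  have h1 : ∀ z : Z.H a, (t⁻¹ • f.push a) z ∈ LinearMap.range (lv hL a) := by
    intro z
    obtain ⟨w, hw⟩ := push_mem_range hL hf a z
    refine ⟨mv hL a (t⁻¹ • w), ?_⟩
    rw [lv_mv, map_smul, hw]
    rfl
  refine ⟨e.symm.toLinearMap ∘ₗ LinearMap.codRestrict _ (t⁻¹ • f.push a) h1, fun z => ?_⟩
  have h2 := congrArg Subtype.val (e.apply_symm_apply
    (LinearMap.codRestrict _ (t⁻¹ • f.push a) h1 z))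
  exact h2

/-- The projection to the virtual section. -/
noncomputable def pr (a : ℕ) : Z.H a →ₗ[Ω] (virt hL).H a := (exists_pr hL hf a).choose

lemma lv_pr (a : ℕ) (z : Z.H a) : lv hL a (pr hL hf a z) = t⁻¹ • f.push a z :=
  (exists_pr hL hf a).choose_spec z

lemma pr_pull (a : ℕ) (x : X.H a) : pr hL hf a (f.pull a x) = mv hL a x := by
  apply lv_injective hL a
  rw [lv_pr, push_pull hf, smul_smul, inv_mul_cancel₀ hf.ne_zero, one_smul, lv_mv]

lemma pr_jn (a : ℕ) (k : (virt hL).H a) : pr hL hf a (jn hL hf a k) = k := by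
  obtain ⟨x, rfl⟩ := mv_surj hL a k
  exact pr_pull hL hf a x

lemma pr_eq_zero {a : ℕ} {z : Z.H a} (h : pr hL hf a z = 0) : f.push a z = 0 := by
  have h1 := lv_pr hL hf a z
  rw [h, map_zero] at h1
  exact (smul_eq_zero.1 h1.symm).resolve_left (inv_ne_zero hf.ne_zero)

lemma pr_res (a : ℕ) (z : Z.H a) :
    pr hL hf (a + 1) (Z.res a z) = (virt hL).res a (pr hL hf a z) := by
  apply lv_injective hL (a + 1)
  rw [lv_res, lv_pr, lv_pr, push_res hf, map_smul]

lemma pr_gys (a : ℕ) (z : Z.H (a + 1)) :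
    pr hL hf a (Z.gys a z) = (virt hL).gys a (pr hL hf (a + 1) z) := by
  apply lv_injective hL a
  rw [lv_gys, lv_pr, lv_pr, push_gys hf, map_smul]

lemma jn_res (a : ℕ) (k : (virt hL).H a) :
    jn hL hf (a + 1) ((virt hL).res a k) = Z.res a (jn hL hf a k) := by
  obtain ⟨x, rfl⟩ := mv_surj hL a k
  rw [jn_mv, ← pull_res hf, res_mv, jn_mv]

lemma jn_gys (a : ℕ) (k : (virt hL).H (a + 1)) :
    jn hL hf a ((virt hL).gys a k) = Z.gys a (jn hL hf (a + 1) k) := by
  obtain ⟨x, rfl⟩ := mv_surj hL (a + 1) k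
  rw [jn_mv, ← pull_gys hf, gys_mv, jn_mv]

lemma jn_gr {a : ℕ} {m : ℤ} {k : (virt hL).H a} (hk : k ∈ (virt hL).gr a m) :
    jn hL hf a k ∈ Z.gr a m := by
  obtain ⟨x, hx, rfl⟩ := (mv_mem hL a m).1 hk
  rw [jn_mv]
  exact pull_gr hf hx

lemma pr_gr {a : ℕ} {m : ℤ} {z : Z.H a} (hz : z ∈ Z.gr a m) :
    pr hL hf a z ∈ (virt hL).gr a m := by
  apply (virt hL).mem_gr_of_pair
  intro m' y hy hne
  obtain ⟨x, hx, rfl⟩ := (mv_mem hL a m').1 hy
  obtain ⟨w, hw⟩ := mv_surj hL a (pr hL hf a z)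
  have h1 : T a w = t⁻¹ • f.push a z := by rw [← lv_mv hL, hw, lv_pr]
  rw [← hw, pair_mv, ← T_pair hL.isClass, h1, map_smul, LinearMap.smul_apply, pair_push hf,
    Z.pair_gr a m m' _ _ hz (pull_gr hf hx) (by omega), smul_zero]

/-- The embedding on families. -/
noncomputable def jC : (virt hL).C →ₗ[Ω] Z.C where
  toFun k a := jn hL hf a (k a)
  map_add' x y := by funext a; exact map_add (jn hL hf a) _ _
  map_smul' s x := by funext a; exact map_smul (jn hL hf a) _ _

/-- The projection on families. -/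
noncomputable def pC : Z.C →ₗ[Ω] (virt hL).C where
  toFun z a := pr hL hf a (z a)
  map_add' x y := by funext a; exact map_add (pr hL hf a) _ _
  map_smul' s x := by funext a; exact map_smul (pr hL hf a) _ _

lemma jC_diff (r : ℤ) (k : (virt hL).C) :
    jC hL hf ((virt hL).diff r k) = Z.diff r (jC hL hf k) := by
  funext a
  rw [Z.diff_apply]
  show jn hL hf a ((virt hL).diff r k a) = _
  rw [(virt hL).diff_apply]
  by_cases h : InColumn (r + 1) a
  · rw [(virt hL).cut_of h, Z.cut_of h]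
    cases a with
    | zero =>
      show jn hL hf 0 ((0 : (virt hL).H 0) + (virt hL).gys 0 (k 1)) =
        (0 : Z.H 0) + Z.gys 0 (jn hL hf 1 (k 1))
      rw [map_add, map_zero]
      congr 1
      exact jn_gys hL hf 0 (k 1)
    | succ a =>
      show jn hL hf (a + 1) ((virt hL).res a (k a) + (virt hL).gys (a + 1) (k (a + 2))) =
        Z.res a (jn hL hf a (k a)) + Z.gys (a + 1) (jn hL hf (a + 2) (k (a + 2)))
      rw [map_add, jn_res, jn_gys]
  · rw [(virt hL).cut_of_not h, Z.cut_of_not h, map_zero]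

lemma pC_diff (r : ℤ) (z : Z.C) : pC hL hf (Z.diff r z) = (virt hL).diff r (pC hL hf z) := by
  funext a
  rw [(virt hL).diff_apply]
  show pr hL hf a (Z.diff r z a) = _
  rw [Z.diff_apply]
  by_cases h : InColumn (r + 1) a
  · rw [(virt hL).cut_of h, Z.cut_of h]
    cases a with
    | zero =>
      show pr hL hf 0 ((0 : Z.H 0) + Z.gys 0 (z 1)) =
        (0 : (virt hL).H 0) + (virt hL).gys 0 (pr hL hf 1 (z 1))
      rw [map_add, map_zero]
      congr 1
      exact pr_gys hL hf 0 (z 1)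
    | succ a =>
      show pr hL hf (a + 1) (Z.res a (z a) + Z.gys (a + 1) (z (a + 2))) =
        (virt hL).res a (pr hL hf a (z a)) + (virt hL).gys (a + 1) (pr hL hf (a + 2) (z (a + 2)))
      rw [map_add, pr_res, pr_gys]
  · rw [(virt hL).cut_of_not h, Z.cut_of_not h, map_zero]

lemma jC_mem {r w : ℤ} {k : (virt hL).C} (hk : k ∈ (virt hL).E₁ r w) :
    jC hL hf k ∈ Z.E₁ r w := by
  intro a
  refine ⟨jn_gr hL hf (hk a).1, fun h => ?_⟩
  show jn hL hf a (k a) = 0
  rw [(hk a).2 h, map_zero]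

lemma pC_mem {r w : ℤ} {z : Z.C} (hz : z ∈ Z.E₁ r w) : pC hL hf z ∈ (virt hL).E₁ r w := by
  intro a
  refine ⟨pr_gr hL hf (hz a).1, fun h => ?_⟩
  show pr hL hf a (z a) = 0
  rw [(hz a).2 h, map_zero]

lemma van_E₁ {r w : ℤ} (h : r + w ≠ n) {z : Z.C} (hz : z ∈ Z.E₁ r w)
    (h0 : pC hL hf z = 0) : z = 0 := by
  funext a
  apply van_zero hL hf _ (hz a).1 (pr_eq_zero hL hf (congrFun h0 a))
  omega

theorem retract :
    Retract Z.diff Z.tot (virt hL).diff (virt hL).tot (jC hL hf) (pC hL hf) where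
  pj k := by funext a; exact pr_jn hL hf a (k a)
  jG i l k hk := jC_mem hL hf hk
  pG i l z hz := pC_mem hL hf hz
  jd i k := jC_diff hL hf i k
  pd i z := pC_diff hL hf i z
  van i l z hz h0 := by
    by_cases h : i + ((n : ℤ) + l - i) = n
    · apply van_E₁ hL hf (r := i + 1) (w := (n : ℤ) + l - i) (by omega) (Z.diff_mem hz)
      rw [pC_diff, h0, map_zero]
    · rw [van_E₁ hL hf h hz h0, map_zero]
  neg i l := by
    unfold SpecialFibre.tot
    have := Z.E₁_neg i (n + l - i)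
    rwa [show (n : ℤ) + l - i + 2 * i = n + l - -i by ring] at this

end Sec

end Pool.Agent.H849.MX
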