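import Pool.Agent.H849.SEC.PolDefs
import Pool.Agent.H849.SEC.Defs

/-!
# Complete intersections of different ample classes: definitions

Let `X` be a projective strictly semistable scheme of relative dimension `n + c` over `O`, and `E` an
ample vector bundle of rank `c` on `X`, for example `E = A_1 ⊕ ⋯ ⊕ A_c` for ample line bundles `A_i`. We
denote by `T` the cup product with `c_c(E)` (`= A_1 ⋯ A_c`) on the cohomology of the strata `Y^(a+1)` of
the special fibre, and by `L` the cup product with an ample class. By the theorem of Bloch and Gieseker,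
applied to `E ⊕ L ⊕ ⋯ ⊕ L`, the map `L ^ s T` is an isomorphism from `H^(d - s)` to `H^(d + s + 2 c)`,
`d = n - a` (in all characteristics: it follows from the hard Lefschetz theorem for the tautological
class of the projective bundle).
-/

set_option autoImplicit false

namespace Pool.Agent.H849.MX

open Module Pool.Agent.Y143 Pool.Agent.H849.SEC

universe u v

variable {Ω : Type u} [Field Ω] {Γ : Type}

section Variety

variable {H : Type v} [AddCommGroup H] [Module Ω H]

/-- `T` is the cup product with a class of degree `2 c`: it has degree `2 c`, and it is selfadjoint for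
the Poincare pairing `B` and commutes with the Lefschetz operator `L`. -/
structure IsClassOn (gr : ℤ → Submodule Ω H) (B : H →ₗ[Ω] H →ₗ[Ω] Ω) (L T : Module.End Ω H)
    (c : ℕ) : Prop where
  gr : ∀ m x, x ∈ gr m → T x ∈ gr (m + 2 * c)
  pair : ∀ x y, ev B (T x) y = ev B x (T y)
  lef : ∀ x, T (L x) = L (T x)

/-- The mixed hard Lefschetz theorem (Bloch-Gieseker): `L ^ s T` is bijective from the degree `d - s` to the degree
`d + s + 2 c`. -/
structure IsMixed (gr : ℤ → Submodule Ω H) (L T : Module.End Ω H) (d : ℤ) (c : ℕ) : Prop where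
  inj : ∀ (s : ℕ) x, x ∈ gr (d - s) → pw L s (T x) = 0 → x = 0
  surj : ∀ (s : ℕ) y, y ∈ gr (d + s + 2 * c) → ∃ x ∈ gr (d - s), pw L s (T x) = y

/-- The mixed Hodge-Riemann relations in degree `m`: `(-1) ^ (m / 2) * B(x, T L ^ (d - m) J x)` is
positive for all `x` of degree `m` with `T x ≠ 0` and `T L ^ (d - m + 1) x = 0`. -/
def IsMixedDefinite (gr : ℤ → Submodule Ω H) (d : ℤ) (B : H →ₗ[Ω] H →ₗ[Ω] Ω)
    (L T : Module.End Ω H) (J : H →+ H) (P : Set Ω) (m : ℤ) : Prop :=
  ∀ (s : ℕ) (x : H), (s : ℤ) = d - m → x ∈ gr m → T (pw L (s + 1) x) = 0 → T x ≠ 0 →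
    (-1 : Ω) ^ (m / 2) * ev B x (T (pw L s (J x))) ∈ P

end Variety

/-- The family `T` is the cup product with a class of degree `2 c` on the strata: it commutes with the
restriction maps and the Gysin maps, and with the operators (up to the Tate twist). -/
structure IsClass (X : StrataData.{u, v} Ω Γ) (T : ∀ a, Module.End Ω (X.H a)) (c : ℕ) : Prop where
  on : ∀ a, IsClassOn (X.gr a) (X.pair a) (X.lef a) (T a) c
  act : ∀ a g x, X.act a g (T a x) = ((X.cyc g ^ c : Ωˣ) : Ω) • T a (X.act a g x)
  res : ∀ a, Intertwines (X.res a) (X.res a) (T a) (T (a + 1))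
  gys : ∀ a, Intertwines (X.gys a) (X.gys a) (T (a + 1)) (T a)

/-- The map `x ↦ T L ^ s x` on the sum of the cohomology groups of the strata. -/
def cupPow (X : StrataData.{u, v} Ω Γ) (T : ∀ a, Module.End Ω (X.H a)) (s : ℕ) (x : X.C) : X.C :=
  fun a => T a (pw (X.lef a) s (x a))

/-- The map `f` induces an isomorphism `Z / B ≅ Z' / B'`. -/
def IsoMod {C : Type v} [AddCommGroup C] [Module Ω C] (f : C → C) (Z B Z' B' : Submodule Ω C) :
    Prop := (∀ x ∈ Z, f x ∈ B' → x ∈ B) ∧ ∀ y ∈ Z', ∃ x ∈ Z, y - f x ∈ B'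

/-- `T` is the cup product with `c_c(E)`, `E` ample of rank `c` (for example with `A_1 ⋯ A_c`, `A_i`
ample), on the scheme `X` of relative dimension `n + c`: the mixed hard Lefschetz theorem is true for the
strata and for the generic fibre (on the `E_2` term). -/
structure IsLefschetzClass (n c : ℕ) (X : StrataData.{u, v} Ω Γ)
    (T : ∀ a, Module.End Ω (X.H a)) : Prop where
  isClass : IsClass X T c
  mixed : ∀ a : ℕ, IsMixed (X.gr a) (X.lef a) (T a) ((n : ℤ) - a) c
  generic : ∀ (r : ℤ) (s : ℕ), IsoMod (cupPow X T s) (X.cocycles r (n - s - r))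
    (X.coboundaries r (n - s - r)) (X.cocycles r (n + s - r + 2 * c))
    (X.coboundaries r (n + s - r + 2 * c))

/-- `i = f^*` and `g = f_*` for a map of smooth projective varieties `f : Z → Y` (`Z` of dimension `d`)
with `f_* 1` given by `T`: `g` is the transpose of `i`, `g i = t T`, and `i` is surjective in the degrees
less than `d` (weak Lefschetz). -/
structure IsPair {H H' : Type v} [AddCommGroup H] [Module Ω H] [AddCommGroup H'] [Module Ω H']
    (gr : ℤ → Submodule Ω H) (gr' : ℤ → Submodule Ω H') (d : ℤ) (B : H →ₗ[Ω] H →ₗ[Ω] Ω)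
    (B' : H' →ₗ[Ω] H' →ₗ[Ω] Ω) (T : Module.End Ω H) (t : Ω) (i : H →ₗ[Ω] H')
    (g : H' →ₗ[Ω] H) : Prop where
  degree : ∀ m x, x ∈ gr m → i x ∈ gr' m
  transpose : IsTranspose B B' i g
  composite : ∀ x, g (i x) = t • T x
  weakLefschetz : ∀ m, m < d → ∀ y ∈ gr' m, ∃ x ∈ gr m, i x = y

/-- `f : Z → X` is a map of strictly semistable schemes, `Z` of relative dimension `n`, with
`f_* 1 = t c_c(E)`, `t ≠ 0`, for example the inclusion of the zero locus of a section of `E` transversal
to the strata (of a complete intersection of members of `|m_i A_i|` if `E = A_1 ⊕ ⋯ ⊕ A_c`), or an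
ample covering of one. -/
structure IsSectionMap {X Z : StrataData.{u, v} Ω Γ} (f : Maps X Z) (n : ℕ)
    (T : ∀ a, Module.End Ω (X.H a)) (t : Ω) : Prop where
  ne_zero : t ≠ 0
  pair : ∀ a : ℕ, IsPair (X.gr a) (Z.gr a) (n - a) (X.pair a) (Z.pair a) (T a) t
    (f.pull a) (f.push a)
  res : ∀ a : ℕ, Intertwines (X.res a) (Z.res a) (f.pull a) (f.pull (a + 1))
  gys : ∀ a : ℕ, Intertwines (X.gys a) (Z.gys a) (f.pull (a + 1)) (f.pull a)

/-- There is such a map. -/
def HasSectionMap (n : ℕ) (X Z : StrataData.{u, v} Ω Γ) (T : ∀ a, Module.End Ω (X.H a)) : Prop :=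
  ∃ (f : Maps X Z) (t : Ω), IsSectionMap f n T t

/-- The strata `Y^(a+1)`, `a ≥ 1`, satisfy the mixed Hodge-Riemann relations for `c_c(E)` and `L`, in
the degrees `m` with `a + m ≤ k`, with respect to a conjugation which commutes with `T`, with the
Lefschetz operator and with the restriction and the Gysin maps. This is true if the strata with `E` and
`L` come from complex projective varieties (for `A_1 ⋯ A_c`: Gromov, Timorin, Dinh-Nguyen, Cattani; for
`c_c(E)` in general: replace `E` by the twists `E⟨tL⟩`, `t → ∞`; by Bloch-Gieseker the form stays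
nondegenerate, so the signatures do not change). -/
def IsMixedPolarised (X : StrataData.{u, v} Ω Γ) (T : ∀ a, Module.End Ω (X.H a)) (n : ℕ)
    (k : ℤ) : Prop :=
  ∃ (P : Set Ω) (J : ∀ a, X.H a →+ X.H a), IsPositive P ∧ IsConjugation X J ∧
    (∀ a, CommutesWith (T a) (J a) (J a)) ∧ ∀ (a : ℕ) (m : ℤ), 1 ≤ a → a + m ≤ k →
      IsMixedDefinite (X.gr a) (n - a) (X.pair a) (X.lef a) (T a) (J a) P m

end Pool.Agent.H849.MX
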