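import Pool.Agent.H849.MX.Virt
import Pool.Agent.H849.SEC.Fam

/-!
# The weight spectral sequence of the virtual section
-/

set_option autoImplicit false

namespace Pool.Agent.H849.MX

open Module Pool.Agent.Y143 Pool.Agent.H849.SEC

universe u v

/-- The family `T` as an operator on the sum of the cohomology groups of the strata. -/
def total {Ω : Type u} [Field Ω] {Γ : Type} (X : StrataData.{u, v} Ω Γ)
    (T : ∀ a, Module.End Ω (X.H a)) : X.C →ₗ[Ω] X.C where
  toFun x a := T a (x a)
  map_add' x y := by funext a; exact map_add (T a) _ _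
  map_smul' t x := by funext a; exact map_smul (T a) _ _

variable {Ω : Type u} [Field Ω] [CharZero Ω] {Γ : Type} {n q c : ℕ}

section Low

variable {X : SpecialFibre.{u, v} Ω Γ (n + c) q} {T : ∀ a, Module.End Ω (X.H a)}
  (hL : IsLefschetzClass n c X.toStrataData T)

lemma total_apply (x : X.C) (a : ℕ) : total X.toStrataData T x a = T a (x a) := rfl

lemma cupPow_eq (s : ℕ) (x : X.C) :
    cupPow X.toStrataData T s x = total X.toStrataData T ((X.lefC ^ s) x) := by
  funext a
  rw [total_apply, X.lefC_pow_apply]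
  rfl

include hL

lemma total_mem {r w : ℤ} {x : X.C} (hx : x ∈ X.E₁ r w) :
    total X.toStrataData T x ∈ X.E₁ r (w + 2 * c) := by
  intro a
  refine ⟨?_, fun h => ?_⟩
  · have := T_gr hL.isClass a _ _ (hx a).1
    rw [total_apply]
    rwa [show w + r - a + 2 * (c : ℤ) = w + 2 * c + r - a by ring] at this
  · rw [total_apply, (hx a).2 h, map_zero]

lemma total_lef_pow (s : ℕ) (x : X.C) :
    total X.toStrataData T ((X.lefC ^ s) x) = (X.lefC ^ s) (total X.toStrataData T x) := by
  funext a
  rw [total_apply, X.lefC_pow_apply, X.lefC_pow_apply, total_apply]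
  exact T_lef_pow hL.isClass s a (x a)

lemma total_res (x : X.C) :
    total X.toStrataData T (X.resC x) = X.resC (total X.toStrataData T x) := by
  funext a
  cases a with
  | zero =>
    show T 0 (0 : X.H 0) = 0
    rw [map_zero]
  | succ a => exact (T_res hL.isClass a (x a)).symm

lemma total_gys (x : X.C) :
    total X.toStrataData T (X.gysC x) = X.gysC (total X.toStrataData T x) := by
  funext a
  exact (T_gys hL.isClass a (x (a + 1))).symm

omit hL in
lemma total_cut (r : ℤ) (x : X.C) :
    total X.toStrataData T (X.cut r x) = X.cut r (total X.toStrataData T x) := by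
  funext a
  by_cases h : InColumn r a
  · rw [total_apply, X.cut_of h, X.cut_of h, total_apply]
  · rw [total_apply, X.cut_of_not h, X.cut_of_not h, map_zero]

lemma total_diff (r : ℤ) (x : X.C) :
    X.diff r (total X.toStrataData T x) = total X.toStrataData T (X.diff r x) := by
  rw [X.diff_apply, X.diff_apply, ← total_res hL, ← total_gys hL, ← map_add, total_cut]

/-- `T` is injective in the total degrees at most `n`. -/
lemma total_inj {r w : ℤ} (h : r + w ≤ n) {x : X.C} (hx : x ∈ X.E₁ r w)
    (h0 : total X.toStrataData T x = 0) : x = 0 := by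
  obtain ⟨s, hs⟩ := Int.eq_ofNat_of_zero_le (show 0 ≤ (n : ℤ) - (r + w) by omega)
  funext a
  apply (hL.mixed a).inj s (x a)
  · have := (hx a).1
    rwa [show (n : ℤ) - a - s = w + r - a by omega]
  · have h1 := congrFun h0 a
    rw [total_apply] at h1
    show (X.lef a ^ s) (T a (x a)) = 0
    rw [h1]
    exact map_zero _

/-- `T` is surjective onto the total degrees at least `n + 2 c`. -/
lemma total_surj {r w : ℤ} (h : n ≤ r + w) {z : X.C} (hz : z ∈ X.E₁ r (w + 2 * c)) :
    ∃ x ∈ X.E₁ r w, total X.toStrataData T x = z := by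
  classical
  obtain ⟨s, hs⟩ := Int.eq_ofNat_of_zero_le (show 0 ≤ (r + w) - (n : ℤ) by omega)
  have h1 : ∀ a : ℕ, ∃ y ∈ X.gr a (w + r - a), T a y = z a := by
    intro a
    obtain ⟨u, hu, huz⟩ := (hL.mixed a).surj s (z a) (by
      have := (hz a).1
      rwa [show (n : ℤ) - a + s + 2 * c = w + 2 * c + r - a by omega])
    refine ⟨(X.lef a ^ s) u, ?_, ?_⟩
    · have h2 : ∀ s : ℕ, ∀ m : ℤ, ∀ u ∈ X.gr a m, (X.lef a ^ s) u ∈ X.gr a (m + 2 * s) := by
        intro s
        induction s with
        | zero => intro m u hu; simpa using hu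
        | succ s ih =>
          intro m u hu
          rw [pow_succ', Module.End.mul_apply]
          have := X.lef_gr a _ _ (ih m u hu)
          rwa [show m + 2 * (s : ℤ) + 2 = m + 2 * ((s + 1 : ℕ) : ℤ) by push_cast; ring] at this
      have := h2 s _ u hu
      rwa [show (n : ℤ) - a - s + 2 * s = w + r - a by omega] at this
    · rw [T_lef_pow hL.isClass]
      exact huz
  choose f hf hf' using h1
  refine ⟨fun a => if InColumn r a then f a else 0, fun a => ?_, ?_⟩
  · by_cases hc : InColumn r a
    · simp only [hc, if_true, not_true_eq_false, IsEmpty.forall_iff, and_true]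
      exact hf a
    · simp only [hc, if_false, not_false_eq_true, forall_true_left, and_true]
      exact Submodule.zero_mem _
  · funext a
    rw [total_apply]
    by_cases hc : InColumn r a
    · simp only [hc, if_true]
      exact hf' a
    · simp only [hc, if_false, map_zero]
      exact ((hz a).2 hc).symm

/-- The projection of families. -/
noncomputable def mkC : X.C →ₗ[Ω] (virt hL).C where
  toFun x a := mk hL.isClass a (x a)
  map_add' x y := by funext a; exact map_add _ _ _
  map_smul' t x := by funext a; exact map_smul _ _ _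

lemma mkC_apply (x : X.C) (a : ℕ) : mkC hL x a = mk hL.isClass a (x a) := rfl

lemma mkC_mem {r w : ℤ} {x : X.C} (hx : x ∈ X.E₁ r w) : mkC hL x ∈ (virt hL).E₁ r w := by
  intro a
  refine ⟨mk_gr hL.isClass a _ (hx a).1, fun h => ?_⟩
  rw [mkC_apply, (hx a).2 h, map_zero]
  rfl

lemma exists_rep {r w : ℤ} {k : (virt hL).C} (hk : k ∈ (virt hL).E₁ r w) :
    ∃ x ∈ X.E₁ r w, mkC hL x = k := by
  classical
  have h1 : ∀ a, ∃ x ∈ X.gr a (w + r - a), mk hL.isClass a x = k a := fun a =>
    (mem_gr hL.isClass a _).1 (hk a).1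
  choose f hf hf' using h1
  refine ⟨fun a => if InColumn r a then f a else 0, fun a => ?_, ?_⟩
  · by_cases hc : InColumn r a
    · simp only [hc, if_true, not_true_eq_false, IsEmpty.forall_iff, and_true]
      exact hf a
    · simp only [hc, if_false, not_false_eq_true, forall_true_left, and_true]
      exact Submodule.zero_mem _
  · funext a
    rw [mkC_apply]
    by_cases hc : InColumn r a
    · simp only [hc, if_true]
      exact hf' a
    · simp only [hc, if_false, map_zero]
      exact ((hk a).2 hc).symm

lemma mkC_lef (x : X.C) : (virt hL).lefC (mkC hL x) = mkC hL (X.lefC x) := by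
  funext a
  exact lef_mk hL.isClass a (x a)

lemma mkC_lef_pow (s : ℕ) (x : X.C) :
    ((virt hL).lefC ^ s) (mkC hL x) = mkC hL ((X.lefC ^ s) x) := by
  induction s with
  | zero => rfl
  | succ s ih => rw [pow_succ', Module.End.mul_apply, ih, mkC_lef, pow_succ',
      Module.End.mul_apply]

lemma mkC_res (x : X.C) : (virt hL).resC (mkC hL x) = mkC hL (X.resC x) := by
  funext a
  cases a with
  | zero =>
    show (0 : (virt hL).H 0) = mk hL.isClass 0 0
    rw [map_zero]
    rfl
  | succ a => exact res_mk hL.isClass a (x a)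

lemma mkC_gys (x : X.C) : (virt hL).gysC (mkC hL x) = mkC hL (X.gysC x) := by
  funext a
  exact gys_mk hL.isClass a (x (a + 1))

lemma mkC_cut (r : ℤ) (x : X.C) : (virt hL).cut r (mkC hL x) = mkC hL (X.cut r x) := by
  funext a
  by_cases h : InColumn r a
  · rw [(virt hL).cut_of h, mkC_apply, mkC_apply, X.cut_of h]
  · rw [(virt hL).cut_of_not h, mkC_apply, X.cut_of_not h, map_zero]
    rfl

lemma mkC_diff (r : ℤ) (x : X.C) : (virt hL).diff r (mkC hL x) = mkC hL (X.diff r x) := by
  rw [(virt hL).diff_apply, X.diff_apply, mkC_res, mkC_gys, ← map_add, mkC_cut]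

lemma mkC_eq_zero {x : X.C} : mkC hL x = 0 ↔ total X.toStrataData T x = 0 := by
  constructor
  · intro h
    funext a
    exact (mk_eq_zero hL.isClass a).1 (congrFun h a)
  · intro h
    funext a
    exact (mk_eq_zero hL.isClass a).2 (congrFun h a)

/-- The hard Lefschetz theorem for the cohomology of the virtual section. -/
theorem virt_hardLefschetz : (virt hL).toStrataData.HasHardLefschetz n := by
  intro r s
  rcases Nat.eq_zero_or_pos s with rfl | hs
  · constructor
    · intro x _ hx'
      rw [pow_zero] at hx'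
      have e : (n : ℤ) - ((0 : ℕ) : ℤ) - r = n + ((0 : ℕ) : ℤ) - r := by push_cast; ring
      rw [e]
      exact hx'
    · intro y hy
      have e : (n : ℤ) - ((0 : ℕ) : ℤ) - r = n + ((0 : ℕ) : ℤ) - r := by push_cast; ring
      refine ⟨y, by rw [e]; exact hy, ?_⟩
      rw [pow_zero, Module.End.one_apply, sub_self]
      exact Submodule.zero_mem _
  · obtain ⟨hinj, hsurj⟩ := hL.generic r s
    simp only [cupPow_eq] at hinj hsurj
    constructor
    · rintro k ⟨hk, hk0⟩ hk'
      obtain ⟨x, hx, rfl⟩ := exists_rep hL hk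
      have h1 : X.diff r x = 0 := by
        apply total_inj hL (r := r + 1) (w := n - s - r) (by omega) (X.diff_mem hx)
        rw [← mkC_eq_zero hL, ← mkC_diff]
        exact hk0
      obtain ⟨l, hl, hlk⟩ := hk'
      obtain ⟨y, hy, rfl⟩ := exists_rep hL hl
      rw [mkC_diff, mkC_lef_pow, ← sub_eq_zero, ← map_sub, mkC_eq_zero, map_sub,
        sub_eq_zero] at hlk
      have h2 : x ∈ X.coboundaries r (n - s - r) := by
        apply hinj x ⟨hx, h1⟩
        refine ⟨total X.toStrataData T y, total_mem hL hy, ?_⟩
        rw [total_diff hL, hlk]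
      obtain ⟨z, hz, hzx⟩ := h2
      exact ⟨mkC hL z, mkC_mem hL hz, by rw [mkC_diff, hzx]⟩
    · rintro k ⟨hk, hk0⟩
      obtain ⟨y, hy, rfl⟩ := exists_rep hL hk
      have h1 : total X.toStrataData T y ∈ X.cocycles r (n + s - r + 2 * c) := by
        refine ⟨total_mem hL hy, ?_⟩
        rw [SetLike.mem_coe, LinearMap.mem_ker, total_diff hL, ← mkC_eq_zero hL, ← mkC_diff]
        exact hk0
      obtain ⟨x, ⟨hx, hx0⟩, z, hz, hzx⟩ := hsurj _ h1
      obtain ⟨z', hz', rfl⟩ := total_surj hL (r := r - 1) (w := n + s - r) (by omega) hz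
      refine ⟨mkC hL x, ⟨mkC_mem hL hx, ?_⟩, mkC hL z', mkC_mem hL hz', ?_⟩
      · rw [SetLike.mem_coe, LinearMap.mem_ker, mkC_diff, show X.diff r x = 0 from hx0, map_zero]
      · rw [mkC_diff, mkC_lef_pow, ← map_sub, ← sub_eq_zero, ← map_sub, mkC_eq_zero, map_sub,
          map_sub, ← total_diff hL, hzx]
        exact sub_self _

end Low

end Pool.Agent.H849.MX
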