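import Pool.Agent.H849.MX.Comp
import Pool.Agent.H849.SEC.Gen
import Pool.Agent.H849.SEC.Pol

/-!
# Complete intersections of different ample classes in polarised schemes
-/

set_option autoImplicit false

namespace Pool.Agent.H849.MX

open Module Pool.Agent.Y143 Pool.Agent.R942.WB Pool.Agent.R942.WM Pool.Agent.H849.SEC

universe u v

variable {Ω : Type u} [Field Ω] [CharZero Ω] {Γ : Type} {n q c : ℕ}

section Pol

variable {X : SpecialFibre.{u, v} Ω Γ (n + c) q} {T : ∀ a, Module.End Ω (X.H a)}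
  (hL : IsLefschetzClass n c X.toStrataData T) {J : ∀ a, X.H a →+ X.H a}
  (hJ : IsConjugation X.toStrataData J) (hJT : ∀ a, CommutesWith (T a) (J a) (J a))

lemma mv_eq_iff {a : ℕ} {x y : X.H a} : mv hL a x = mv hL a y ↔ T a (x - y) = 0 := by
  rw [← sub_eq_zero, ← map_sub, mv_eq_zero]

include hJT in
lemma mv_J {a : ℕ} {x y : X.H a} (h : mv hL a x = mv hL a y) :
    mv hL a (J a x) = mv hL a (J a y) := by
  rw [mv_eq_iff] at h ⊢
  rw [← map_sub, ← hJT a, h, map_zero]

include hJT in
/-- The conjugation on the virtual section. -/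
noncomputable def conjV (a : ℕ) : (virt hL).H a →+ (virt hL).H a where
  toFun k := mv hL a (J a (mv_surj hL a k).choose)
  map_zero' := by
    have h1 := (mv_surj hL a (0 : (virt hL).H a)).choose_spec
    have h2 : mv hL a (mv_surj hL a (0 : (virt hL).H a)).choose = mv hL a 0 := by
      rw [h1, map_zero]
    rw [mv_J hL hJT h2, map_zero, map_zero]
  map_add' k l := by
    have h2 : mv hL a (mv_surj hL a (k + l)).choose =
        mv hL a ((mv_surj hL a k).choose + (mv_surj hL a l).choose) := by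
      rw [map_add, (mv_surj hL a k).choose_spec, (mv_surj hL a l).choose_spec,
        (mv_surj hL a (k + l)).choose_spec]
    rw [mv_J hL hJT h2, map_add, map_add]

lemma conjV_mv (a : ℕ) (x : X.H a) : conjV hL hJT a (mv hL a x) = mv hL a (J a x) :=
  mv_J hL hJT (mv_surj hL a (mv hL a x)).choose_spec

include hJ in
theorem virt_conj : IsConjugation (virt hL).toStrataData (conjV hL hJT) where
  lef a x := by
    obtain ⟨x, rfl⟩ := mv_surj hL a x
    show conjV hL hJT a ((virt hL).lef a _) = (virt hL).lef a _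
    rw [lef_mv, conjV_mv, conjV_mv, lef_mv, hJ.lef]
  res a x := by
    obtain ⟨x, rfl⟩ := mv_surj hL a x
    show conjV hL hJT (a + 1) ((virt hL).res a _) = (virt hL).res a _
    rw [res_mv, conjV_mv, conjV_mv, res_mv, hJ.res]
  gys a x := by
    obtain ⟨x, rfl⟩ := mv_surj hL (a + 1) x
    show conjV hL hJT a ((virt hL).gys a _) = (virt hL).gys a _
    rw [gys_mv, conjV_mv, conjV_mv, gys_mv, hJ.gys]

lemma lef_pow_mv (s a : ℕ) (x : X.H a) :
    ((virt hL).lef a ^ s) (mv hL a x) = mv hL a ((X.lef a ^ s) x) :=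
  lef_pow_mk hL.isClass s a x

/-- The virtual section satisfies the Hodge-Riemann relations in the same total degrees. -/
theorem virt_polarised {k : ℤ} (h : IsMixedPolarised X.toStrataData T n k) :
    IsPolarised (virt hL).toStrataData n k := by
  obtain ⟨P, J, hP, hJ, hJT, hpos⟩ := h
  refine ⟨P, conjV hL hJT, hP, virt_conj hL hJ hJT, fun a m ha ham s x hs hx hx0 hne => ?_⟩
  obtain ⟨x, hxm, rfl⟩ := (mv_mem hL a m).1 hx
  have h0 : ((virt hL).lef a ^ (s + 1)) (mv hL a x) = 0 := hx0
  rw [lef_pow_mv, mv_eq_zero] at h0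
  have h1 := hpos a m ha ham s x hs hxm h0 (fun h => hne ((mv_eq_zero hL a).2 h))
  have h2 : ev ((virt hL).pair a) (mv hL a x) (pw ((virt hL).lef a) s (conjV hL hJT a (mv hL a x))) =
      ev (X.pair a) x (T a (pw (X.lef a) s (J a x))) := by
    show (virt hL).pair a (mv hL a x) (((virt hL).lef a ^ s) (conjV hL hJT a (mv hL a x))) =
      X.pair a x (T a ((X.lef a ^ s) (J a x)))
    rw [conjV_mv, lef_pow_mv, pair_mv]
  have h3 : (-1 : Ω) ^ (m / 2) * ev ((virt hL).pair a) (mv hL a x)
      (pw ((virt hL).lef a) s (conjV hL hJT a (mv hL a x))) ∈ P := by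
    rw [h2]
    exact h1
  exact h3

end Pol

/-- **Complete intersections of different ample classes in polarised schemes.** -/
theorem pure_of_mixed [IsAlgClosed Ω] (hq : 1 < q) {X : SpecialFibre.{u, v} Ω Γ (n + c) q}
    {T : ∀ a, Module.End Ω (X.H a)} (hL : IsLefschetzClass n c X.toStrataData T)
    {Z : SemistableModel.{u, v} Ω Γ n q} (hZ : HasSectionMap n X.toStrataData Z.toStrataData T)
    (j : ℕ) (hP : IsMixedPolarised X.toStrataData T n (min (j : ℤ) (2 * n - j))) :
    IsPureIn Z j := by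
  rw [pure_iff_E₂ Z hq j]
  obtain ⟨f, t, hf⟩ := hZ
  intro k hk
  rw [(Sec.retract hL (Z := Z.toSpecialFibre) hf).nInj_iff,
    (Sec.retract hL (Z := Z.toSpecialFibre) hf).nSurj_iff]
  exact nInj_nSurj_pol (virt_hardLefschetz hL) (virt_polarised hL hP) k hk

end Pool.Agent.H849.MX
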