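import Pool.Graph.R_seed8.Y143.Sym
import Pool.Graph.R_seed8.Y143.Pure
import Pool.Agent.H849.MX.Defs
import Pool.Agent.H849.SEC.Virt

/-!
# The virtual section: the special fibre modulo the kernel of `T`
-/

set_option autoImplicit false

namespace Pool.Agent.H849.MX

open Module Pool.Agent.Y143 Pool.Agent.H849.SEC

universe u v

variable {Ω : Type u} [Field Ω] [CharZero Ω] {Γ : Type} {n q c : ℕ}

section Data

variable {X : StrataData.{u, v} Ω Γ} {T : ∀ a, Module.End Ω (X.H a)} (hT : IsClass X T c)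

include hT

lemma T_lef (a : ℕ) (x : X.H a) : T a (X.lef a x) = X.lef a (T a x) := (hT.on a).lef x

lemma T_res (a : ℕ) (x : X.H a) : X.res a (T a x) = T (a + 1) (X.res a x) := (hT.res a x).symm

lemma T_gys (a : ℕ) (x : X.H (a + 1)) : X.gys a (T (a + 1) x) = T a (X.gys a x) :=
  (hT.gys a x).symm

lemma T_act (a : ℕ) (g : Γ) (x : X.H a) :
    X.act a g (T a x) = (X.cyc g : Ω) ^ c • T a (X.act a g x) := by
  rw [hT.act, Units.val_pow_eq_pow_val]

lemma T_pair (a : ℕ) (x y : X.H a) : X.pair a (T a x) y = X.pair a x (T a y) :=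
  (hT.on a).pair x y

lemma T_gr (a : ℕ) (m : ℤ) (x : X.H a) (h : x ∈ X.gr a m) : T a x ∈ X.gr a (m + 2 * c) :=
  (hT.on a).gr m x h

end Data

/-- The strata data of the virtual section: the cohomology of the strata modulo the kernel of `T`. -/
noncomputable def virtData {X : StrataData.{u, v} Ω Γ} {T : ∀ a, Module.End Ω (X.H a)}
    (hT : IsClass X T c) : StrataData.{u, v} Ω Γ where
  H a := X.H a ⧸ LinearMap.ker (T a)
  gr a m := (X.gr a m).map (LinearMap.ker (T a)).mkQ
  pair a := quotForm (T a) (X.pair a) (by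
    intro x hx
    apply LinearMap.ext
    intro k
    obtain ⟨y, rfl⟩ := (LinearMap.ker (T a)).mkQ_surjective k
    rw [LinearMap.compl₂_apply, emb_mk, ← T_pair hT, LinearMap.mem_ker.1 hx]
    simp)
  lef a := (LinearMap.ker (T a)).mapQ _ (X.lef a) (by
    intro x hx
    rw [Submodule.mem_comap, LinearMap.mem_ker, T_lef hT, LinearMap.mem_ker.1 hx, map_zero])
  res a := Submodule.mapQ _ _ (X.res a) (by
    intro x hx
    rw [Submodule.mem_comap, LinearMap.mem_ker, ← T_res hT, LinearMap.mem_ker.1 hx, map_zero])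
  gys a := Submodule.mapQ _ _ (X.gys a) (by
    intro x hx
    rw [Submodule.mem_comap, LinearMap.mem_ker, ← T_gys hT, LinearMap.mem_ker.1 hx, map_zero])
  act a g := Submodule.mapQ _ _ (X.act a g) (by
    intro x hx
    rw [Submodule.mem_comap, LinearMap.mem_ker]
    have h := T_act hT a g x
    rw [LinearMap.mem_ker.1 hx, map_zero] at h
    exact (smul_eq_zero.1 h.symm).resolve_left (pow_ne_zero _ (Units.ne_zero _)))
  cyc := X.cyc
  tr := X.tr
  frob := X.frob

section

variable {X : StrataData.{u, v} Ω Γ} {T : ∀ a, Module.End Ω (X.H a)} (hT : IsClass X T c)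

/-- The projection to the virtual section. -/
noncomputable def mk (a : ℕ) : X.H a →ₗ[Ω] (virtData hT).H a := (LinearMap.ker (T a)).mkQ

/-- The embedding given by `T`. -/
noncomputable def em (a : ℕ) : (virtData hT).H a →ₗ[Ω] X.H a := emb (T a)

lemma mk_surj (a : ℕ) (k : (virtData hT).H a) : ∃ x, mk hT a x = k :=
  (LinearMap.ker (T a)).mkQ_surjective k

lemma em_mk (a : ℕ) (x : X.H a) : em hT a (mk hT a x) = T a x := emb_mk _ _

lemma em_inj (a : ℕ) {k : (virtData hT).H a} (h : em hT a k = 0) : k = 0 := emb_inj _ h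

lemma mk_eq_zero (a : ℕ) {x : X.H a} : mk hT a x = 0 ↔ T a x = 0 := by
  rw [← em_mk hT]
  exact ⟨fun h => by rw [h, map_zero], fun h => em_inj hT a h⟩

lemma mem_gr (a : ℕ) (m : ℤ) {k : (virtData hT).H a} :
    k ∈ (virtData hT).gr a m ↔ ∃ x ∈ X.gr a m, mk hT a x = k := Iff.rfl

lemma mk_gr (a : ℕ) (m : ℤ) {x : X.H a} (h : x ∈ X.gr a m) : mk hT a x ∈ (virtData hT).gr a m :=
  ⟨x, h, rfl⟩

lemma pair_mk (a : ℕ) (x y : X.H a) :
    (virtData hT).pair a (mk hT a x) (mk hT a y) = X.pair a x (T a y) := by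
  show X.pair a x (em hT a (mk hT a y)) = _
  rw [em_mk]

lemma lef_mk (a : ℕ) (x : X.H a) :
    (virtData hT).lef a (mk hT a x) = mk hT a (X.lef a x) := rfl

lemma res_mk (a : ℕ) (x : X.H a) :
    (virtData hT).res a (mk hT a x) = mk hT (a + 1) (X.res a x) := rfl

lemma gys_mk (a : ℕ) (x : X.H (a + 1)) :
    (virtData hT).gys a (mk hT (a + 1) x) = mk hT a (X.gys a x) := rfl

lemma act_mk (a : ℕ) (g : Γ) (x : X.H a) :
    (virtData hT).act a g (mk hT a x) = mk hT a (X.act a g x) := rfl

lemma lef_pow_mk (s a : ℕ) (x : X.H a) :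
    ((virtData hT).lef a ^ s) (mk hT a x) = mk hT a ((X.lef a ^ s) x) := by
  induction s with
  | zero => rfl
  | succ s ih => rw [pow_succ', Module.End.mul_apply, ih, lef_mk, pow_succ', Module.End.mul_apply]

include hT in
lemma T_lef_pow (s a : ℕ) (x : X.H a) : T a ((X.lef a ^ s) x) = (X.lef a ^ s) (T a x) := by
  induction s with
  | zero => rfl
  | succ s ih => rw [pow_succ', Module.End.mul_apply, T_lef hT, ih, Module.End.mul_apply]

end

section Dual

variable {X : SpecialFibre.{u, v} Ω Γ (n + c) q} {T : ∀ a, Module.End Ω (X.H a)}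
  (hL : IsLefschetzClass n c X.toStrataData T)

lemma em_gr {a : ℕ} {m : ℤ} {k : (virtData hL.isClass).H a}
    (h : k ∈ (virtData hL.isClass).gr a m) : em hL.isClass a k ∈ X.gr a (m + 2 * c) := by
  obtain ⟨x, hx, rfl⟩ := (mem_gr hL.isClass a m).1 h
  rw [em_mk]
  exact T_gr hL.isClass a m x hx

lemma virt_graded (a : ℕ) : IsGraded ((virtData hL.isClass).gr a) ((n : ℤ) - a) where
  finite := inferInstanceAs (Module.Finite Ω (X.H a ⧸ LinearMap.ker (T a)))
  isInternal := by
    rw [DirectSum.isInternal_submodule_iff_iSupIndep_and_iSup_eq_top]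
    constructor
    · intro m
      rw [Submodule.disjoint_def]
      intro k hk hk'
      apply em_inj hL.isClass a
      have h1 : em hL.isClass a k ∈ X.gr a (m + 2 * c) := em_gr hL hk
      have h2 : em hL.isClass a k ∈ ⨆ j, ⨆ (_ : j ≠ m + 2 * (c : ℤ)), X.gr a j := by
        have h3 : (⨆ j, ⨆ (_ : j ≠ m), (virtData hL.isClass).gr a j) ≤
            (⨆ j, ⨆ (_ : j ≠ m + 2 * (c : ℤ)), X.gr a j).comap (em hL.isClass a) := by
          apply iSup₂_le
          intro j hj k hk
          rw [Submodule.mem_comap]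
          exact Submodule.mem_iSup_of_mem (j + 2 * c)
            (Submodule.mem_iSup_of_mem (by omega) (em_gr hL hk))
        exact h3 hk'
      have h4 := (DirectSum.isInternal_submodule_iff_iSupIndep_and_iSup_eq_top _).1 (X.isInternal a)
      exact (Submodule.disjoint_def.1 (h4.1 (m + 2 * c))) _ h1 h2
    · rw [eq_top_iff]
      rintro k -
      obtain ⟨x, rfl⟩ := mk_surj hL.isClass a k
      refine X.gr_induction (P := fun x => mk hL.isClass a x ∈ ⨆ m, (virtData hL.isClass).gr a m)
        (by simp) (fun x y hx hy => by rw [map_add]; exact Submodule.add_mem _ hx hy)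
        (fun m x hx => ?_) x
      exact Submodule.mem_iSup_of_mem m (mk_gr hL.isClass a m hx)
  gr_eq_bot m hm := by
    rw [eq_bot_iff]
    intro k hk
    replace hk := (mem_gr hL.isClass a m).1 hk
    obtain ⟨x, hx, rfl⟩ := hk
    rw [Submodule.mem_bot, mk_eq_zero]
    rcases hm with hm | hm
    · rw [X.gr_eq_bot a m (Or.inl hm), Submodule.mem_bot] at hx
      rw [hx, map_zero]
    · have h1 := T_gr hL.isClass a m x hx
      rw [X.gr_eq_bot a _ (Or.inr (by push_cast; omega)), Submodule.mem_bot] at h1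
      exact h1

lemma virt_poincare (a : ℕ) :
    IsPoincare ((virtData hL.isClass).gr a) ((n : ℤ) - a) ((virtData hL.isClass).pair a) where
  pair_gr m m' x y hx hy hmm := by
    replace hx := (mem_gr hL.isClass a m).1 hx
    obtain ⟨x, hx, rfl⟩ := hx
    replace hy := (mem_gr hL.isClass a m').1 hy
    obtain ⟨y, hy, rfl⟩ := hy
    show (virtData hL.isClass).pair a _ _ = 0
    rw [pair_mk]
    exact X.pair_gr a _ _ _ _ hx (T_gr hL.isClass a m' y hy) (by push_cast; omega)
  pair_nondeg x hx := by
    obtain ⟨x, rfl⟩ := mk_surj hL.isClass a x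
    rw [mk_eq_zero]
    apply X.pair_nondeg
    intro y
    have := hx (mk hL.isClass a y)
    rw [T_pair hL.isClass]
    rw [← pair_mk hL.isClass]
    exact this
  pair_symm m x y hx := by
    replace hx := (mem_gr hL.isClass a m).1 hx
    obtain ⟨x, hx, rfl⟩ := hx
    obtain ⟨y, rfl⟩ := mk_surj hL.isClass a y
    show (virtData hL.isClass).pair a _ _ = _ * (virtData hL.isClass).pair a _ _
    rw [pair_mk, pair_mk, ← T_pair hL.isClass]
    exact X.pair_symm a m x _ hx

lemma virt_lefschetz (a : ℕ) : IsLefschetz ((virtData hL.isClass).gr a) ((n : ℤ) - a)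
    ((virtData hL.isClass).pair a) ((virtData hL.isClass).lef a) where
  lef_gr m x hx := by
    replace hx := (mem_gr hL.isClass a m).1 hx
    obtain ⟨x, hx, rfl⟩ := hx
    rw [lef_mk]
    exact mk_gr hL.isClass a _ (X.lef_gr a m x hx)
  lef_pair x y := by
    obtain ⟨x, rfl⟩ := mk_surj hL.isClass a x
    obtain ⟨y, rfl⟩ := mk_surj hL.isClass a y
    show (virtData hL.isClass).pair a _ _ = (virtData hL.isClass).pair a _ _
    rw [lef_mk, lef_mk, pair_mk, pair_mk, X.lef_pair, T_lef hL.isClass]
  lef_inj s x hx h := by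
    replace hx := (mem_gr hL.isClass a _).1 hx
    obtain ⟨x, hx, rfl⟩ := hx
    have h' : ((virtData hL.isClass).lef a ^ s) (mk hL.isClass a x) = 0 := h
    rw [lef_pow_mk, mk_eq_zero, T_lef_pow hL.isClass] at h'
    rw [(hL.mixed a).inj s x hx h', map_zero]
  lef_surj s y hy := by
    replace hy := (mem_gr hL.isClass a _).1 hy
    obtain ⟨y, hy, rfl⟩ := hy
    obtain ⟨x, hx, hxy⟩ := (hL.mixed a).surj s (T a y) (T_gr hL.isClass a _ y hy)
    refine ⟨mk hL.isClass a x, mk_gr hL.isClass a _ hx, ?_⟩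
    show ((virtData hL.isClass).lef a ^ s) (mk hL.isClass a x) = mk hL.isClass a y
    rw [lef_pow_mk, ← sub_eq_zero, ← map_sub, mk_eq_zero, map_sub, T_lef_pow hL.isClass]
    exact sub_eq_zero.2 hxy

lemma virt_operators (a : ℕ) : IsOperators ((virtData hL.isClass).gr a) ((n : ℤ) - a)
    ((virtData hL.isClass).pair a) ((virtData hL.isClass).lef a) ((virtData hL.isClass).act a)
    (virtData hL.isClass).cyc (virtData hL.isClass).tr where
  act_comm g h x := by
    obtain ⟨x, rfl⟩ := mk_surj hL.isClass a x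
    rw [act_mk, act_mk, act_mk, act_mk, X.act_comm]
  act_gr m g x hx := by
    replace hx := (mem_gr hL.isClass a m).1 hx
    obtain ⟨x, hx, rfl⟩ := hx
    rw [act_mk]
    exact mk_gr hL.isClass a m (X.act_gr a m g x hx)
  act_pair g x y := by
    obtain ⟨x, rfl⟩ := mk_surj hL.isClass a x
    obtain ⟨y, rfl⟩ := mk_surj hL.isClass a y
    show (virtData hL.isClass).pair a _ _ = ((X.cyc g ^ ((n : ℤ) - a) : Ωˣ) : Ω) *
      (virtData hL.isClass).pair a _ ((virtData hL.isClass).act a (X.tr g) _)
    rw [act_mk, act_mk, pair_mk, pair_mk, X.act_pair, T_act hL.isClass, map_smul, smul_eq_mul,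
      X.cyc_tr, ← mul_assoc, ← Units.val_pow_eq_pow_val, ← Units.val_mul]
    congr 2
    rw [inv_pow, ← zpow_natCast, ← zpow_neg, ← zpow_add]
    congr 1
    push_cast
    ring
  lef_act g x := by
    obtain ⟨x, rfl⟩ := mk_surj hL.isClass a x
    show (virtData hL.isClass).act a g ((virtData hL.isClass).lef a _) = (X.cyc g : Ω) • _
    rw [lef_mk, act_mk, act_mk, lef_mk, X.lef_act, map_smul]

lemma virt_frobenius (a : ℕ) : IsFrobenius ((virtData hL.isClass).gr a) q
    ((virtData hL.isClass).act a (virtData hL.isClass).frob)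
    ((virtData hL.isClass).act a ((virtData hL.isClass).tr (virtData hL.isClass).frob)) where
  frob_inv x := by
    obtain ⟨x, rfl⟩ := mk_surj hL.isClass a x
    show (virtData hL.isClass).act a (X.tr X.frob) ((virtData hL.isClass).act a X.frob _) = _
    rw [act_mk, act_mk, X.frob_inv]
  weil m α x hx hx0 h := by
    replace hx := (mem_gr hL.isClass a m).1 hx
    obtain ⟨x, hx, rfl⟩ := hx
    have h' : (virtData hL.isClass).act a X.frob (mk hL.isClass a x) =
      α • mk hL.isClass a x := h
    have h1 := congrArg (em hL.isClass a) h'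
    rw [act_mk, map_smul, em_mk, em_mk] at h1
    have h2 := T_act hL.isClass a X.frob x
    rw [h1, X.cyc_frob, smul_smul] at h2
    have h3 : T a x ≠ 0 := fun h0 => hx0 ((mk_eq_zero hL.isClass a).2 h0)
    have h4 := X.weil a _ _ _ (T_gr hL.isClass a m x hx) h3 h2
    have h5 := h4.twist X.q_ne (-(c : ℤ))
    rw [← mul_assoc, zpow_neg, zpow_natCast,
      inv_mul_cancel₀ (pow_ne_zero _ (Nat.cast_ne_zero.2 X.q_ne)), one_mul] at h5
    rwa [show m + 2 * (c : ℤ) + 2 * -(c : ℤ) = m by ring] at h5

/-- The virtual section given by `T`. -/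
noncomputable def virt : SpecialFibre.{u, v} Ω Γ n q where
  toStrataData := virtData hL.isClass
  duality a := ⟨virt_graded hL a, virt_poincare hL a, virt_lefschetz hL a⟩
  operators := ⟨fun a => virt_operators hL a, X.tr_tr, X.cyc_tr⟩
  frobenius := ⟨fun a => virt_frobenius hL a, X.cyc_frob⟩
  restriction :=
    { restriction := fun a =>
        { res_gr := fun m x hx => by
            replace hx := (mem_gr hL.isClass a m).1 hx
            obtain ⟨x, hx, rfl⟩ := hx
            rw [res_mk]
            exact mk_gr hL.isClass (a + 1) m (X.res_gr a m x hx)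
          res_act := fun g x => by
            obtain ⟨x, rfl⟩ := mk_surj hL.isClass a x
            rw [res_mk, act_mk, act_mk, res_mk, X.res_act]
          res_lef := fun x => by
            obtain ⟨x, rfl⟩ := mk_surj hL.isClass a x
            rw [lef_mk, res_mk, res_mk, lef_mk, X.res_lef] }
      transpose := fun a x y => by
        obtain ⟨x, rfl⟩ := mk_surj hL.isClass a x
        obtain ⟨y, rfl⟩ := mk_surj hL.isClass (a + 1) y
        show (virtData hL.isClass).pair (a + 1) _ _ = (virtData hL.isClass).pair a _ _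
        rw [res_mk, gys_mk, pair_mk, pair_mk, X.pair_res, T_gys hL.isClass]
      res_res := fun a x => by
        obtain ⟨x, rfl⟩ := mk_surj hL.isClass a x
        rw [res_mk, res_mk, X.res_res, map_zero]
      res_gys := fun a x => by
        obtain ⟨x, rfl⟩ := mk_surj hL.isClass (a + 1) x
        rw [gys_mk, res_mk, res_mk, gys_mk, ← map_add, X.res_gys, map_zero] }

end Dual

end Pool.Agent.H849.MX
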